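import Pool.Agent.helper64.OT.SpecD

set_option autoImplicit false

namespace Pool.Agent.OT

open Finset

theorem GNA_ps_add {p : ℕ} [NeZero p] (a b : ZMod p) : ps (a + b) = ps a * ps b := by
  unfold ps
  exact AddChar.map_add_eq_mul _ _ _

theorem GNA_ps_norm {p : ℕ} [NeZero p] (a : ZMod p) : ‖ps a‖ = 1 := by
  unfold ps
  exact AddChar.norm_apply _ _

theorem GNA_ps_conj {p : ℕ} [NeZero p] (a : ZMod p) : (starRingEnd ℂ) (ps a) = ps (-a) := by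
  unfold ps
  exact (AddChar.map_neg_eq_conj _ _).symm

theorem GNA_conj {p : ℕ} [Fact p.Prime] (χ : MulChar (ZMod p) ℂ) (x : ZMod p) :
    χ⁻¹ x = (starRingEnd ℂ) (χ x) := (MulChar.star_apply' χ x).symm

/-- the square of the modulus of a sum -/
theorem GNA_sq {ι : Type} (S : Finset ι) (f : ι → ℂ) :
    ((‖∑ i ∈ S, f i‖ ^ 2 : ℝ) : ℂ) = ∑ i ∈ S, ∑ i' ∈ S, f i * (starRingEnd ℂ) (f i') := by
  push_cast
  rw [← Complex.mul_conj', map_sum, Finset.sum_mul_sum]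

/-- Cauchy -/
theorem GNA_cs {ι : Type} (S : Finset ι) (f g : ι → ℂ) :
    ‖∑ i ∈ S, f i * g i‖ ^ 2 ≤ (∑ i ∈ S, ‖f i‖ ^ 2) * ∑ i ∈ S, ‖g i‖ ^ 2 := by
  have h1 : ‖∑ i ∈ S, f i * g i‖ ≤ ∑ i ∈ S, ‖f i‖ * ‖g i‖ := by
    refine (norm_sum_le _ _).trans (le_of_eq ?_)
    exact Finset.sum_congr rfl fun i _ => norm_mul _ _
  calc ‖∑ i ∈ S, f i * g i‖ ^ 2 ≤ (∑ i ∈ S, ‖f i‖ * ‖g i‖) ^ 2 := pow_le_pow_left₀ (norm_nonneg _) h1 2
    _ ≤ _ := Finset.sum_mul_sq_le_sq_mul_sq _ _ _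

/-- the complete sum -/
theorem GNA_W1 (hW1 : W1_stmt) {p : ℕ} [Fact p.Prime] (χ : MulChar (ZMod p) ℂ) (hχ : χ ≠ 1) (s s' u : ZMod p)
    (hs : s ≠ s') :
    ‖∑ t : ZMod p, χ⁻¹ (t - s) * (starRingEnd ℂ) (χ⁻¹ (t - s')) * ps (t * u)‖ ≤ 4 * Real.sqrt p := by
  have h1 : ∑ t : ZMod p, χ⁻¹ (t - s) * (starRingEnd ℂ) (χ⁻¹ (t - s')) * ps (t * u) =
      ps (s * u) * ∑ t : ZMod p, ps (u * t) * (starRingEnd ℂ) (χ t) * χ (t + (s - s')) := by
    rw [Finset.mul_sum]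
    refine (Fintype.sum_equiv (Equiv.addRight s) _ _ fun t => ?_).symm
    simp only [Equiv.coe_addRight]
    rw [GNA_conj, GNA_conj, Complex.conj_conj]
    have e1 : t + s - s = t := by ring
    have e2 : t + s - s' = t + (s - s') := by ring
    have e3 : (t + s) * u = s * u + u * t := by ring
    rw [e1, e2, e3, GNA_ps_add]
    ring
  rw [h1, norm_mul, GNA_ps_norm, one_mul]
  exact hW1 p χ hχ (s - s') u (sub_ne_zero.2 hs)

/-- the first factor -/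
theorem GNA_P {p : ℕ} [NeZero p] (N T : ℕ) (J : Finset ℕ) (c : ℕ → ℂ) :
    ((∑ j ∈ J, ‖∑ s ∈ range T, c s * ps (-((s : ZMod p) * ((j : ZMod p) * (N : ZMod p))))‖ ^ 2 : ℝ) : ℂ) =
      ∑ s ∈ range T, ∑ s' ∈ range T, c s * (starRingEnd ℂ) (c s') * WJ N J ((s' : ZMod p) - (s : ZMod p)) := by
  rw [Complex.ofReal_sum]
  have h1 : ∀ j ∈ J, ((‖∑ s ∈ range T, c s * ps (-((s : ZMod p) * ((j : ZMod p) * (N : ZMod p))))‖ ^ 2 : ℝ) : ℂ) =
      ∑ s ∈ range T, ∑ s' ∈ range T, c s * (starRingEnd ℂ) (c s') *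
        ps (((s' : ZMod p) - (s : ZMod p)) * ((j : ZMod p) * (N : ZMod p))) := by
    intro j _
    rw [GNA_sq]
    refine Finset.sum_congr rfl fun s _ => Finset.sum_congr rfl fun s' _ => ?_
    rw [map_mul, GNA_ps_conj, neg_neg]
    have e : ((s' : ZMod p) - (s : ZMod p)) * ((j : ZMod p) * (N : ZMod p)) =
        -((s : ZMod p) * ((j : ZMod p) * (N : ZMod p))) + (s' : ZMod p) * ((j : ZMod p) * (N : ZMod p)) := by ring
    rw [e, GNA_ps_add]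
    ring
  rw [Finset.sum_congr rfl h1, Finset.sum_comm]
  refine Finset.sum_congr rfl fun s _ => ?_
  rw [Finset.sum_comm]
  refine Finset.sum_congr rfl fun s' _ => ?_
  unfold WJ
  rw [Finset.mul_sum]

/-- the second factor -/
theorem GNA_Q {p : ℕ} [NeZero p] (J : Finset ℕ) (C : ℕ → Finset (ZMod p)) (γ : ZMod p → ℂ) (t : ZMod p) :
    ((∑ j ∈ J, ‖Pool.Agent.SPI.ft (C j) γ t‖ ^ 2 : ℝ) : ℂ) = ∑ j ∈ J, ∑ b ∈ C j, ∑ b' ∈ C j,
      γ b * (starRingEnd ℂ) (γ b') * ps (t * (b - b')) := by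
  rw [Complex.ofReal_sum]
  refine Finset.sum_congr rfl fun j _ => ?_
  unfold Pool.Agent.SPI.ft
  rw [GNA_sq]
  refine Finset.sum_congr rfl fun b _ => Finset.sum_congr rfl fun b' _ => ?_
  have e1 : (ZMod.stdAddChar (t * b) : ℂ) = ps (t * b) := rfl
  have e2 : (ZMod.stdAddChar (t * b') : ℂ) = ps (t * b') := rfl
  rw [e1, e2, map_mul, GNA_ps_conj]
  have e : t * (b - b') = t * b + -(t * b') := by ring
  rw [e, GNA_ps_add]
  ring

/-- the off-diagonal terms -/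
theorem GNA_off (hW1 : W1_stmt) {p : ℕ} [Fact p.Prime] (χ : MulChar (ZMod p) ℂ) (hχ : χ ≠ 1) (s s' : ZMod p)
    (hs : s ≠ s') (w w' : ℂ) (hw : ‖w‖ ≤ 1) (hw' : ‖w'‖ ≤ 1) (J : Finset ℕ) (C : ℕ → Finset (ZMod p)) (γ : ZMod p → ℂ)
    (hγ : ∀ b, ‖γ b‖ ≤ 1) :
    ‖∑ t : ZMod p, (w * χ⁻¹ (t - s)) * (starRingEnd ℂ) (w' * χ⁻¹ (t - s')) *
      ((∑ j ∈ J, ‖Pool.Agent.SPI.ft (C j) γ t‖ ^ 2 : ℝ) : ℂ)‖ ≤ 4 * Real.sqrt p * ∑ j ∈ J, ((C j).card : ℝ) ^ 2 := by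
  have h1 : ∑ t : ZMod p, (w * χ⁻¹ (t - s)) * (starRingEnd ℂ) (w' * χ⁻¹ (t - s')) *
      ((∑ j ∈ J, ‖Pool.Agent.SPI.ft (C j) γ t‖ ^ 2 : ℝ) : ℂ) =
      ∑ j ∈ J, ∑ b ∈ C j, ∑ b' ∈ C j, (w * (starRingEnd ℂ) w' * (γ b * (starRingEnd ℂ) (γ b'))) *
        ∑ t : ZMod p, χ⁻¹ (t - s) * (starRingEnd ℂ) (χ⁻¹ (t - s')) * ps (t * (b - b')) := by
    have h2 : ∀ t : ZMod p, (w * χ⁻¹ (t - s)) * (starRingEnd ℂ) (w' * χ⁻¹ (t - s')) *
        ((∑ j ∈ J, ‖Pool.Agent.SPI.ft (C j) γ t‖ ^ 2 : ℝ) : ℂ) =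
        ∑ j ∈ J, ∑ b ∈ C j, ∑ b' ∈ C j, (w * (starRingEnd ℂ) w' * (γ b * (starRingEnd ℂ) (γ b'))) *
        (χ⁻¹ (t - s) * (starRingEnd ℂ) (χ⁻¹ (t - s')) * ps (t * (b - b'))) := by
      intro t
      rw [GNA_Q, Finset.mul_sum]
      refine Finset.sum_congr rfl fun j _ => ?_
      rw [Finset.mul_sum]
      refine Finset.sum_congr rfl fun b _ => ?_
      rw [Finset.mul_sum]
      refine Finset.sum_congr rfl fun b' _ => ?_
      rw [map_mul]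
      ring
    rw [Finset.sum_congr rfl fun t _ => h2 t, Finset.sum_comm]
    refine Finset.sum_congr rfl fun j _ => ?_
    rw [Finset.sum_comm]
    refine Finset.sum_congr rfl fun b _ => ?_
    rw [Finset.sum_comm]
    refine Finset.sum_congr rfl fun b' _ => ?_
    rw [Finset.mul_sum]
  rw [h1]
  have h3 : ∀ b b' : ZMod p, ‖(w * (starRingEnd ℂ) w' * (γ b * (starRingEnd ℂ) (γ b'))) *
      ∑ t : ZMod p, χ⁻¹ (t - s) * (starRingEnd ℂ) (χ⁻¹ (t - s')) * ps (t * (b - b'))‖ ≤ 4 * Real.sqrt p := by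
    intro b b'
    rw [norm_mul]
    have h4 := GNA_W1 hW1 χ hχ s s' (b - b') hs
    have h5 : ‖w * (starRingEnd ℂ) w' * (γ b * (starRingEnd ℂ) (γ b'))‖ ≤ 1 := by
      rw [norm_mul, norm_mul, norm_mul, RCLike.norm_conj, RCLike.norm_conj]
      exact mul_le_one₀ (mul_le_one₀ hw (norm_nonneg _) hw') (mul_nonneg (norm_nonneg _) (norm_nonneg _))
        (mul_le_one₀ (hγ b) (norm_nonneg _) (hγ b'))
    calc _ ≤ 1 * (4 * Real.sqrt p) := mul_le_mul h5 h4 (norm_nonneg _) (by norm_num)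
      _ = _ := one_mul _
  calc _ ≤ ∑ j ∈ J, ∑ b ∈ C j, ∑ b' ∈ C j, 4 * Real.sqrt p := by
        refine (norm_sum_le _ _).trans (Finset.sum_le_sum fun j _ => ?_)
        refine (norm_sum_le _ _).trans (Finset.sum_le_sum fun b _ => ?_)
        exact (norm_sum_le _ _).trans (Finset.sum_le_sum fun b' _ => h3 b b')
    _ = 4 * Real.sqrt p * ∑ j ∈ J, ((C j).card : ℝ) ^ 2 := by
        rw [Finset.mul_sum]
        refine Finset.sum_congr rfl fun j _ => ?_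
        rw [Finset.sum_const, Finset.sum_const, nsmul_eq_mul, nsmul_eq_mul]
        ring

/-- the combination -/
theorem GNA_comb {p : ℕ} [NeZero p] (T : ℕ) (c : ℕ → ZMod p → ℂ) (P Q : ZMod p → ℝ) (W : ℕ → ℕ → ℂ) (K E R : ℝ)
    (hP0 : ∀ t, 0 ≤ P t) (hQ0 : ∀ t, 0 ≤ Q t) (hK : 0 ≤ K)
    (hP : ∀ t, ((P t : ℝ) : ℂ) = ∑ s ∈ range T, ∑ s' ∈ range T, c s t * (starRingEnd ℂ) (c s' t) * W s s')
    (hin : ∀ s ∈ range T, ∀ s' ∈ range T, ‖∑ t : ZMod p, c s t * (starRingEnd ℂ) (c s' t) * ((Q t : ℝ) : ℂ)‖ ≤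
      (if s = s' then K else 0) + E) (hW : ∀ s, ‖W s s‖ ≤ R) :
    ∑ t, P t * Q t ≤ T * R * K + E * ∑ s ∈ range T, ∑ s' ∈ range T, ‖W s s'‖ := by
  have hZ : ((∑ t, P t * Q t : ℝ) : ℂ) = ∑ s ∈ range T, ∑ s' ∈ range T,
      W s s' * ∑ t : ZMod p, c s t * (starRingEnd ℂ) (c s' t) * ((Q t : ℝ) : ℂ) := by
    rw [Complex.ofReal_sum]
    have h1 : ∀ t : ZMod p, ((P t * Q t : ℝ) : ℂ) = ∑ s ∈ range T, ∑ s' ∈ range T,
        W s s' * (c s t * (starRingEnd ℂ) (c s' t) * ((Q t : ℝ) : ℂ)) := by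
      intro t
      rw [Complex.ofReal_mul, hP t, Finset.sum_mul]
      refine Finset.sum_congr rfl fun s _ => ?_
      rw [Finset.sum_mul]
      refine Finset.sum_congr rfl fun s' _ => ?_
      ring
    rw [Finset.sum_congr rfl fun t _ => h1 t, Finset.sum_comm]
    refine Finset.sum_congr rfl fun s _ => ?_
    rw [Finset.sum_comm]
    refine Finset.sum_congr rfl fun s' _ => ?_
    rw [Finset.mul_sum]
  have hZ0 : 0 ≤ ∑ t, P t * Q t := Finset.sum_nonneg fun t _ => mul_nonneg (hP0 t) (hQ0 t)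
  have hZn : ∑ t, P t * Q t ≤ ∑ s ∈ range T, ∑ s' ∈ range T, ‖W s s'‖ * ((if s = s' then K else 0) + E) := by
    have h1 : ∑ t, P t * Q t = ‖((∑ t, P t * Q t : ℝ) : ℂ)‖ := by
      rw [Complex.norm_real, Real.norm_eq_abs, abs_of_nonneg hZ0]
    rw [h1, hZ]
    refine (norm_sum_le _ _).trans (Finset.sum_le_sum fun s hs => ?_)
    refine (norm_sum_le _ _).trans (Finset.sum_le_sum fun s' hs' => ?_)
    rw [norm_mul]
    exact mul_le_mul_of_nonneg_left (hin s hs s' hs') (norm_nonneg _)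
  refine hZn.trans ?_
  have h1 : ∑ s ∈ range T, ∑ s' ∈ range T, ‖W s s'‖ * ((if s = s' then K else 0) + E) =
      (∑ s ∈ range T, ‖W s s‖ * K) + ∑ s ∈ range T, ∑ s' ∈ range T, ‖W s s'‖ * E := by
    rw [← Finset.sum_add_distrib]
    refine Finset.sum_congr rfl fun s hs => ?_
    have h2 : ∀ s' : ℕ, ‖W s s'‖ * ((if s = s' then K else 0) + E) =
        (if s = s' then ‖W s s‖ * K else 0) + ‖W s s'‖ * E := by
      intro s'
      by_cases h : s = s'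
      · rw [if_pos h, if_pos h, h]
        ring
      · rw [if_neg h, if_neg h]
        ring
    rw [Finset.sum_congr rfl fun s' _ => h2 s', Finset.sum_add_distrib, Finset.sum_ite_eq, if_pos hs]
  rw [h1]
  refine add_le_add ?_ (le_of_eq ?_)
  · calc ∑ s ∈ range T, ‖W s s‖ * K ≤ ∑ s ∈ range T, R * K :=
          Finset.sum_le_sum fun s _ => mul_le_mul_of_nonneg_right (hW s) hK
      _ = T * R * K := by
          rw [Finset.sum_const, Finset.card_range, nsmul_eq_mul]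
          ring
  · simp only [← Finset.sum_mul]
    ring

/-- Plancherel -/
theorem GNA_pln (hPLN : Pool.Agent.SPI.PLN_stmt) {p : ℕ} [Fact p.Prime] (N : ℕ) (B : Finset (ZMod p)) (γ : ZMod p → ℂ)
    (hγ : ∀ b, ‖γ b‖ ≤ 1) :
    ∑ t : ZMod p, ∑ j ∈ cells N B, ‖Pool.Agent.SPI.ft (cell N B j) γ t‖ ^ 2 ≤ p * B.card := by
  rw [Finset.sum_comm]
  have h1 : ∀ j ∈ cells N B, ∑ t : ZMod p, ‖Pool.Agent.SPI.ft (cell N B j) γ t‖ ^ 2 ≤
      p * ((cell N B j).card : ℝ) := by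
    intro j _
    rw [hPLN p (cell N B j) γ]
    refine mul_le_mul_of_nonneg_left ?_ (Nat.cast_nonneg _)
    calc ∑ a ∈ cell N B j, ‖γ a‖ ^ 2 ≤ ∑ a ∈ cell N B j, (1 : ℝ) :=
          Finset.sum_le_sum fun a _ => pow_le_one₀ (norm_nonneg _) (hγ a)
      _ = (cell N B j).card := by simp
  refine (Finset.sum_le_sum h1).trans ?_
  rw [← Finset.mul_sum]
  refine mul_le_mul_of_nonneg_left (le_of_eq ?_) (Nat.cast_nonneg _)
  have h2 : B.card = ∑ j ∈ cells N B, (cell N B j).card :=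
    Finset.card_eq_sum_card_fiberwise (f := fun b : ZMod p => b.val / N) (t := cells N B)
      fun b hb => Finset.mem_image_of_mem _ hb
  rw [h2]
  push_cast
  rfl

theorem GNA (hW1 : W1_stmt) (hPLN : Pool.Agent.SPI.PLN_stmt) : GNA_stmt := by
  intro p hp χ N T B w γ hχ hN hT hTp hw hγ
  have hwn : ∀ s, ‖(w s : ℂ)‖ ≤ 1 := by
    intro s
    rw [Complex.norm_real, Real.norm_eq_abs, abs_of_nonneg (hw s).1]
    exact (hw s).2
  have hcn : ∀ (s : ℕ) (t : ZMod p), ‖(w s : ℂ) * χ⁻¹ (t - (s : ZMod p))‖ ≤ 1 := by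
    intro s t
    rw [norm_mul]
    exact mul_le_one₀ (hwn s) (norm_nonneg _) (DirichletCharacter.norm_le_one χ⁻¹ _)
  have hQ0 : ∀ t : ZMod p, 0 ≤ ∑ j ∈ cells N B, ‖Pool.Agent.SPI.ft (cell N B j) γ t‖ ^ 2 :=
    fun t => Finset.sum_nonneg fun j _ => sq_nonneg _
  have hD0 : 0 ≤ ∑ j ∈ cells N B, ((cell N B j).card : ℝ) ^ 2 := Finset.sum_nonneg fun j _ => sq_nonneg _
  have hr : 0 ≤ 4 * Real.sqrt p * ∑ j ∈ cells N B, ((cell N B j).card : ℝ) ^ 2 :=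
    mul_nonneg (mul_nonneg (by norm_num) (Real.sqrt_nonneg _)) hD0
  have hK : 0 ≤ (p : ℝ) * B.card := mul_nonneg (Nat.cast_nonneg _) (Nat.cast_nonneg _)
  have hA : ∀ t : ZMod p, ‖GN χ N T B w γ t‖ ^ 2 ≤
      (∑ j ∈ cells N B, ‖∑ s ∈ range T, (w s : ℂ) * χ⁻¹ (t - (s : ZMod p)) *
        ps (-((s : ZMod p) * ((j : ZMod p) * (N : ZMod p))))‖ ^ 2) *
        ∑ j ∈ cells N B, ‖Pool.Agent.SPI.ft (cell N B j) γ t‖ ^ 2 := by
    intro t
    exact GNA_cs (cells N B) _ _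
  have hin : ∀ s ∈ range T, ∀ s' ∈ range T, ‖∑ t : ZMod p, ((w s : ℂ) * χ⁻¹ (t - (s : ZMod p))) *
      (starRingEnd ℂ) ((w s' : ℂ) * χ⁻¹ (t - (s' : ZMod p))) *
      ((∑ j ∈ cells N B, ‖Pool.Agent.SPI.ft (cell N B j) γ t‖ ^ 2 : ℝ) : ℂ)‖ ≤
      (if s = s' then (p : ℝ) * B.card else 0) +
        4 * Real.sqrt p * ∑ j ∈ cells N B, ((cell N B j).card : ℝ) ^ 2 := by
    intro s hs s' hs'
    by_cases h : s = s'
    · rw [if_pos h]
      refine le_add_of_le_of_nonneg ?_ hr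
      refine le_trans ?_ (GNA_pln hPLN N B γ hγ)
      refine (norm_sum_le _ _).trans (Finset.sum_le_sum fun t _ => ?_)
      rw [norm_mul, norm_mul, RCLike.norm_conj, Complex.norm_real, Real.norm_eq_abs, abs_of_nonneg (hQ0 t)]
      exact mul_le_of_le_one_left (hQ0 t) (mul_le_one₀ (hcn s t) (norm_nonneg _) (hcn s' t))
    · rw [if_neg h, zero_add]
      have hs1 : s < T := Finset.mem_range.1 hs
      have hs2 : s' < T := Finset.mem_range.1 hs'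
      have hne : (s : ZMod p) ≠ (s' : ZMod p) := by
        intro h1
        rw [ZMod.natCast_eq_natCast_iff', Nat.mod_eq_of_lt (by omega), Nat.mod_eq_of_lt (by omega)] at h1
        exact h h1
      exact GNA_off hW1 χ hχ _ _ hne _ _ (hwn s) (hwn s') _ _ γ hγ
  have hW0 : ∀ s : ℕ, ‖WJ N (cells N B) ((s : ZMod p) - (s : ZMod p))‖ ≤ ((cells N B).card : ℝ) := by
    intro s
    unfold WJ
    refine (norm_sum_le _ _).trans ?_
    simp only [GNA_ps_norm, Finset.sum_const, nsmul_eq_mul, mul_one]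
    exact le_rfl
  have hfin := GNA_comb T (fun s t => (w s : ℂ) * χ⁻¹ (t - (s : ZMod p)))
    (fun t => ∑ j ∈ cells N B, ‖∑ s ∈ range T, (w s : ℂ) * χ⁻¹ (t - (s : ZMod p)) *
        ps (-((s : ZMod p) * ((j : ZMod p) * (N : ZMod p))))‖ ^ 2)
    (fun t => ∑ j ∈ cells N B, ‖Pool.Agent.SPI.ft (cell N B j) γ t‖ ^ 2)
    (fun s s' => WJ N (cells N B) ((s' : ZMod p) - (s : ZMod p)))
    ((p : ℝ) * B.card) (4 * Real.sqrt p * ∑ j ∈ cells N B, ((cell N B j).card : ℝ) ^ 2) ((cells N B).card : ℝ)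
    (fun t => Finset.sum_nonneg fun j _ => sq_nonneg _) hQ0 hK
    (fun t => GNA_P N T (cells N B) fun s => (w s : ℂ) * χ⁻¹ (t - (s : ZMod p))) hin hW0
  calc ∑ t : ZMod p, ‖GN χ N T B w γ t‖ ^ 2 ≤ ∑ t : ZMod p,
        (∑ j ∈ cells N B, ‖∑ s ∈ range T, (w s : ℂ) * χ⁻¹ (t - (s : ZMod p)) *
        ps (-((s : ZMod p) * ((j : ZMod p) * (N : ZMod p))))‖ ^ 2) *
        ∑ j ∈ cells N B, ‖Pool.Agent.SPI.ft (cell N B j) γ t‖ ^ 2 := Finset.sum_le_sum fun t _ => hA t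
    _ ≤ _ := hfin
    _ = _ := by ring

end Pool.Agent.OT
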